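import Pool.Agent.Helper26.AL.GoalsA

/-! Packet AL-LFC (MP_af6c86_pr): removal of a leaf. -/

set_option autoImplicit false

namespace Pool.Agent.Helper79.AL.LFC

open Finset Pool.Agent.Helper26.AF Pool.Agent.Helper26.AL

section

variable {V W : Type} [Fintype V] [DecidableEq V] [Fintype W] [DecidableEq W]
  (e : W ↪ V) (G : SimpleGraph V) (x y : V)

open Classical in
/-- the retraction onto the graph without the leaf -/
noncomputable def rho (y' : W) (v : V) : W := if h : ∃ w, e w = v then h.choose else y'

theorem rho_e (y' w : W) : rho e y' (e w) = w := by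
  have h : ∃ w', e w' = e w := ⟨w, rfl⟩
  unfold rho
  rw [dif_pos h]
  exact e.injective h.choose_spec

variable {e G x y} (hr : ∀ v, v ∈ Set.range e ↔ v ≠ x)

include hr

theorem rho_x (y' : W) : rho e y' x = y' := by
  have h : ¬ ∃ w, e w = x := by
    intro h
    exact (hr x).1 h rfl
  unfold rho
  rw [dif_neg h]

theorem e_ne (w : W) : e w ≠ x := (hr (e w)).1 ⟨w, rfl⟩

theorem exists_e {v : V} (hv : v ≠ x) : ∃ w, e w = v := (hr v).2 hv

theorem eIn_pull (hxy : G.Adj x y) (hu : ∀ z, G.Adj x z → z = y) {y' : W} (hy : e y' = y)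
    (Q' : Finset W) : eIn G (univ.filter fun v => rho e y' v ∈ Q')
      = eIn (G.comap e) Q' + if y' ∈ Q' then 1 else 0 := by
  set A : Set (Sym2 V) := {f | f ∈ G.edgeSet ∧ ∀ v ∈ f, v ∈ univ.filter fun v => rho e y' v ∈ Q'}
    with hA
  set B : Set (Sym2 W) := {f | f ∈ (G.comap e).edgeSet ∧ ∀ v ∈ f, v ∈ Q'} with hB
  have hA1 : eIn G (univ.filter fun v => rho e y' v ∈ Q') = A.ncard := rfl
  have hB1 : eIn (G.comap e) Q' = B.ncard := rfl
  have himg : (Sym2.map e '' B).ncard = B.ncard :=
    Set.ncard_image_of_injective _ (Sym2.map.injective e.injective)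
  have hmA : ∀ u v, s(u, v) ∈ A ↔ G.Adj u v ∧ rho e y' u ∈ Q' ∧ rho e y' v ∈ Q' := by
    intro u v
    constructor
    · rintro ⟨h1, h2⟩
      refine ⟨h1, ?_, ?_⟩
      · have := h2 u (Sym2.mem_mk_left u v)
        rw [Finset.mem_filter] at this
        exact this.2
      · have := h2 v (Sym2.mem_mk_right u v)
        rw [Finset.mem_filter] at this
        exact this.2
    · rintro ⟨h1, h2, h3⟩
      refine ⟨h1, ?_⟩
      intro w hw
      rw [Finset.mem_filter]
      rcases Sym2.mem_iff.mp hw with rfl | rfl
      · exact ⟨mem_univ _, h2⟩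
      · exact ⟨mem_univ _, h3⟩
  have hmB : ∀ a b, s(a, b) ∈ B ↔ G.Adj (e a) (e b) ∧ a ∈ Q' ∧ b ∈ Q' := by
    intro a b
    constructor
    · rintro ⟨h1, h2⟩
      exact ⟨h1, h2 a (Sym2.mem_mk_left a b), h2 b (Sym2.mem_mk_right a b)⟩
    · rintro ⟨h1, h2, h3⟩
      refine ⟨h1, ?_⟩
      intro w hw
      rcases Sym2.mem_iff.mp hw with rfl | rfl
      · exact h2
      · exact h3
  have hsub : Sym2.map e '' B ⊆ A := by
    rintro _ ⟨f, hf, rfl⟩
    induction f using Sym2.ind with
    | h a b =>
      rw [hmB] at hf
      rw [Sym2.map_mk, hmA, rho_e, rho_e]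
      exact hf
  have hsup : ∀ u v, s(u, v) ∈ A → u ≠ x → v ≠ x → s(u, v) ∈ Sym2.map e '' B := by
    intro u v h h1 h2
    obtain ⟨a, rfl⟩ := exists_e hr h1
    obtain ⟨b, rfl⟩ := exists_e hr h2
    rw [hmA, rho_e, rho_e] at h
    exact ⟨s(a, b), (hmB a b).2 h, rfl⟩
  have hnot : s(x, y) ∉ Sym2.map e '' B := by
    rintro ⟨f, hf, hfe⟩
    induction f using Sym2.ind with
    | h a b =>
      rw [Sym2.map_mk, Sym2.eq_iff] at hfe
      rcases hfe with ⟨h1, _⟩ | ⟨_, h1⟩
      · exact e_ne hr a h1
      · exact e_ne hr b h1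
  by_cases hQ : y' ∈ Q'
  · rw [if_pos hQ, hA1, hB1, ← himg]
    have hAe : A = insert s(x, y) (Sym2.map e '' B) := by
      apply Set.Subset.antisymm
      · intro f hf
        induction f using Sym2.ind with
        | h u v =>
          by_cases h1 : u = x
          · left
            have h2 := ((hmA u v).1 hf).1
            rw [h1] at h2
            rw [h1, hu v h2]
          · by_cases h2 : v = x
            · left
              have h3 := ((hmA u v).1 hf).1
              rw [h2] at h3
              rw [h2, hu u h3.symm, Sym2.eq_swap]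
            · right
              exact hsup u v hf h1 h2
      · intro f hf
        rcases hf with rfl | hf
        · rw [hmA]
          refine ⟨hxy, ?_, ?_⟩
          · rw [rho_x hr]; exact hQ
          · rw [← hy, rho_e]; exact hQ
        · exact hsub hf
    rw [hAe]
    exact Set.ncard_insert_of_notMem hnot (Set.toFinite _)
  · rw [if_neg hQ, hA1, hB1, ← himg, add_zero]
    congr 1
    apply Set.Subset.antisymm
    · intro f hf
      induction f using Sym2.ind with
      | h u v =>
        by_cases h1 : u = x
        · exfalso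
          have h2 := ((hmA u v).1 hf).2.1
          rw [h1, rho_x hr] at h2
          exact hQ h2
        · by_cases h2 : v = x
          · exfalso
            have h2 := ((hmA u v).1 hf).2.2
            rw [‹v = x›, rho_x hr] at h2
            exact hQ h2
          · exact hsup u v hf h1 h2
    · exact hsub

theorem card_pull {y' : W} (Q' : Finset W) :
    #(univ.filter fun v => rho e y' v ∈ Q') = #Q' + if y' ∈ Q' then 1 else 0 := by
  have hx : x ∉ Q'.map e := by
    rw [Finset.mem_map]
    rintro ⟨a, _, h⟩
    exact e_ne hr a h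
  by_cases hQ : y' ∈ Q'
  · rw [if_pos hQ]
    have : (univ.filter fun v => rho e y' v ∈ Q') = insert x (Q'.map e) := by
      ext v
      rw [Finset.mem_filter, Finset.mem_insert, Finset.mem_map]
      constructor
      · rintro ⟨_, h⟩
        by_cases hv : v = x
        · left; exact hv
        · right
          obtain ⟨w, rfl⟩ := exists_e hr hv
          rw [rho_e] at h
          exact ⟨w, h, rfl⟩
      · rintro (rfl | ⟨w, hw, rfl⟩)
        · exact ⟨mem_univ _, by rw [rho_x hr]; exact hQ⟩
        · exact ⟨mem_univ _, by rw [rho_e]; exact hw⟩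
    rw [this, Finset.card_insert_of_notMem hx, Finset.card_map]
  · rw [if_neg hQ, add_zero]
    have : (univ.filter fun v => rho e y' v ∈ Q') = Q'.map e := by
      ext v
      rw [Finset.mem_filter, Finset.mem_map]
      constructor
      · rintro ⟨_, h⟩
        by_cases hv : v = x
        · exfalso
          rw [hv, rho_x hr] at h
          exact hQ h
        · obtain ⟨w, rfl⟩ := exists_e hr hv
          rw [rho_e] at h
          exact ⟨w, h, rfl⟩
      · rintro ⟨w, hw, rfl⟩
        exact ⟨mem_univ _, by rw [rho_e]; exact hw⟩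
    rw [this, Finset.card_map]

theorem reach_iff (hxy : G.Adj x y) (hu : ∀ z, G.Adj x z → z = y) {y' : W} (hy : e y' = y)
    (u v : V) : G.Reachable u v ↔ (G.comap e).Reachable (rho e y' u) (rho e y' v) := by
  constructor
  · rintro ⟨p⟩
    induction p with
    | nil => exact SimpleGraph.Reachable.refl _
    | @cons a b c h _ ih =>
      refine SimpleGraph.Reachable.trans ?_ ih
      by_cases h1 : a = x
      · rw [h1] at h
        have h2 := hu b h
        rw [h1, h2, rho_x hr, ← hy, rho_e]
      · by_cases h2 : b = x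
        · rw [h2] at h
          have h3 := hu a h.symm
          rw [h2, h3, rho_x hr, ← hy, rho_e]
        · obtain ⟨a', rfl⟩ := exists_e hr h1
          obtain ⟨b', rfl⟩ := exists_e hr h2
          rw [rho_e, rho_e]
          have h3 : (G.comap e).Adj a' b' := h
          exact h3.reachable
  · intro h
    have h1 : ∀ a b : W, (G.comap e).Reachable a b → G.Reachable (e a) (e b) := by
      rintro a b ⟨p⟩
      induction p with
      | nil => exact SimpleGraph.Reachable.refl _
      | @cons a b c h _ ih =>
        have h3 : G.Adj (e a) (e b) := h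
        exact h3.reachable.trans ih
    have h2 : ∀ u, G.Reachable u (e (rho e y' u)) := by
      intro u
      by_cases hux : u = x
      · rw [hux, rho_x hr, hy]
        exact hxy.reachable
      · obtain ⟨w, rfl⟩ := exists_e hr hux
        rw [rho_e]
    exact (h2 u).trans ((h1 _ _ h).trans (h2 v).symm)

end

theorem goalLFC : StmtLFC := by
  classical
  intro V W _ _ _ _ e G x y hr hxy hu
  obtain ⟨y', hy⟩ := exists_e hr hxy.ne.symm
  have hcomp1 : ∀ Q', IsComp (G.comap e) Q' →
      IsComp G (univ.filter fun v => rho e y' v ∈ Q') := by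
    rintro Q' ⟨c, hc⟩
    induction c using SimpleGraph.ConnectedComponent.ind with
    | h a =>
      refine ⟨G.connectedComponentMk (e a), ?_⟩
      have hm : ∀ w, w ∈ Q' ↔ (G.comap e).Reachable w a := by
        intro w
        rw [← Finset.mem_coe, ← hc, SimpleGraph.ConnectedComponent.mem_supp_iff,
          SimpleGraph.ConnectedComponent.eq]
      ext v
      rw [Finset.mem_coe, Finset.mem_filter, SimpleGraph.ConnectedComponent.mem_supp_iff,
        SimpleGraph.ConnectedComponent.eq, reach_iff hr hxy hu hy, rho_e, hm]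
      simp
  have hcomp2 : ∀ Q, IsComp G Q → ∃ Q', IsComp (G.comap e) Q' ∧
      Q = univ.filter fun v => rho e y' v ∈ Q' := by
    rintro Q ⟨c, hc⟩
    induction c using SimpleGraph.ConnectedComponent.ind with
    | h v =>
      refine ⟨((G.comap e).connectedComponentMk (rho e y' v)).supp.toFinset,
        ⟨(G.comap e).connectedComponentMk (rho e y' v), by rw [Set.coe_toFinset]⟩, ?_⟩
      have hm : ∀ w, w ∈ Q ↔ G.Reachable w v := by
        intro w
        rw [← Finset.mem_coe, ← hc, SimpleGraph.ConnectedComponent.mem_supp_iff,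
          SimpleGraph.ConnectedComponent.eq]
      ext u
      rw [Finset.mem_filter, Set.mem_toFinset, SimpleGraph.ConnectedComponent.mem_supp_iff,
        SimpleGraph.ConnectedComponent.eq, ← reach_iff hr hxy hu hy, hm]
      simp
  refine ⟨⟨?_, ?_⟩, ?_⟩
  · intro h Q hQ
    obtain ⟨Q', hQ', rfl⟩ := hcomp2 Q hQ
    rw [eIn_pull hr hxy hu hy, card_pull hr]
    have := h Q' hQ'
    omega
  · intro h Q' hQ'
    have h1 := h _ (hcomp1 Q' hQ')
    rw [eIn_pull hr hxy hu hy, card_pull hr] at h1
    omega
  · have h1 := eIn_pull hr hxy hu hy (univ : Finset W)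
    have h2 : (univ.filter fun v => rho e y' v ∈ (univ : Finset W)) = (univ : Finset V) := by
      ext v
      simp
    rw [h2, if_pos (mem_univ _)] at h1
    have h3 : eIn G univ = ne G := by
      unfold eIn ne
      apply Nat.card_congr
      apply Equiv.subtypeEquivRight
      intro f
      simp
    have h4 : eIn (G.comap e) univ = ne (G.comap e) := by
      unfold eIn ne
      apply Nat.card_congr
      apply Equiv.subtypeEquivRight
      intro f
      simp
    rw [h3, h4] at h1
    exact h1

end Pool.Agent.Helper79.AL.LFC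

namespace Pool.Agent.Helper79.AL

theorem goalLFC : Pool.Agent.Helper26.AL.StmtLFC := LFC.goalLFC

end Pool.Agent.Helper79.AL
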