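import Pool.Agent.Helper26.AL.GoalsB
import Pool.Agent.Helper33.AF.GRF

/-! Packet AL-PAX (MP_af6c86_pr): from graphs to pairings. -/

set_option autoImplicit false

namespace Pool.Agent.Helper79.AL

open Finset Pool.Agent.Helper26.AF Pool.Agent.Helper26.AL Pool.Agent.Helper33.AF

theorem handshake {V : Type} [Fintype V] (Γ : SimpleGraph V) :
    ∑ v, dg Γ v = 2 * ne Γ := by
  classical
  have h1 := Γ.sum_degrees_eq_twice_card_edges
  have h2 : ∀ v, dg Γ v = Γ.degree v := by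
    intro v
    rw [dg, Nat.card_eq_fintype_card, SimpleGraph.card_neighborSet_eq_degree]
  have h3 : ne Γ = Γ.edgeFinset.card := by
    rw [ne, Nat.card_eq_fintype_card, SimpleGraph.edgeFinset_card]
  rw [h3, ← h1]
  exact Finset.sum_congr rfl (fun v _ => h2 v)

/-- the edges inside a closed set -/
def inQ {V : Type} (Γ : SimpleGraph V) (Q : Finset V) : SimpleGraph V where
  Adj a b := Γ.Adj a b ∧ a ∈ Q ∧ b ∈ Q
  symm := ⟨fun _ _ h => ⟨h.1.symm, h.2.2, h.2.1⟩⟩
  loopless := ⟨fun _ h => h.1.ne rfl⟩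

theorem ne_inQ {V : Type} (Γ : SimpleGraph V) (Q : Finset V) : ne (inQ Γ Q) = eIn Γ Q := by
  unfold ne eIn
  apply Nat.card_congr
  apply Equiv.subtypeEquivRight
  intro e
  induction e using Sym2.ind with
  | h a b =>
    rw [SimpleGraph.mem_edgeSet, SimpleGraph.mem_edgeSet]
    constructor
    · rintro ⟨h1, h2, h3⟩
      refine ⟨h1, ?_⟩
      intro v hv
      rcases Sym2.mem_iff.mp hv with rfl | rfl
      · exact h2
      · exact h3
    · rintro ⟨h1, h2⟩
      exact ⟨h1, h2 a (Sym2.mem_mk_left a b), h2 b (Sym2.mem_mk_right a b)⟩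

theorem eIn_closed {V : Type} [Fintype V] (Γ : SimpleGraph V) (Q : Finset V)
    (hQ : ∀ a b, Γ.Adj a b → a ∈ Q → b ∈ Q) : ∑ v ∈ Q, dg Γ v = 2 * eIn Γ Q := by
  classical
  rw [← ne_inQ, ← handshake]
  rw [← Finset.sum_subset (Finset.subset_univ Q)]
  · refine Finset.sum_congr rfl fun v hv => ?_
    unfold dg
    apply Nat.card_congr
    apply Equiv.subtypeEquivRight
    intro w
    constructor
    · intro h
      exact ⟨h, hv, hQ v w h hv⟩
    · intro h
      exact h.1
  · intro v _ hv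
    unfold dg
    rw [Nat.card_eq_zero]
    left
    constructor
    rintro ⟨w, hw⟩
    exact hv hw.2.1

section

variable {r N : ℕ} (Γ : SimpleGraph (VV r N))

/-- the labellings of the darts -/
abbrev Lab : Type := {L : HH r N ≃ Γ.Dart // ∀ h, (L h).fst = vt h}

theorem exists_lab (h3 : ∀ v, dg Γ (Sum.inl v) = 3) (h2 : ∀ w, dg Γ (Sum.inr w) = 2) :
    Nonempty (Lab Γ) := by
  classical
  have hc : ∀ v : VV r N, Nonempty ({h : HH r N // vt h = v} ≃ Γ.neighborSet v) := by
    intro v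
    have h4 : Nat.card {h : HH r N // vt h = v} = Nat.card (Γ.neighborSet v) := by
      rcases v with v | w
      · rw [card_fib_inl]; exact (h3 v).symm
      · rw [card_fib_inr]; exact (h2 w).symm
    exact ⟨(Finite.equivFin _).trans ((finCongr h4).trans (Finite.equivFin _).symm)⟩
  let e : ∀ v : VV r N, {h : HH r N // vt h = v} ≃ Γ.neighborSet v := fun v => (hc v).some
  let L0 : HH r N → Γ.Dart := fun h => ⟨(vt h, (e (vt h) ⟨h, rfl⟩).1), (e (vt h) ⟨h, rfl⟩).2⟩
  have hv : ∀ (h : HH r N) (v : VV r N) (hv : vt h = v),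
      (e (vt h) ⟨h, rfl⟩).1 = (e v ⟨h, hv⟩).1 := by
    rintro h _ rfl
    rfl
  have hbij : Function.Bijective L0 := by
    constructor
    · intro h h' hh
      have h5 : (vt h, (e (vt h) ⟨h, rfl⟩).1) = (vt h', (e (vt h') ⟨h', rfl⟩).1) :=
        congrArg SimpleGraph.Dart.toProd hh
      have h6 : vt h = vt h' := congrArg Prod.fst h5
      have h7 : (e (vt h) ⟨h, rfl⟩).1 = (e (vt h') ⟨h', rfl⟩).1 := congrArg Prod.snd h5
      rw [hv h' (vt h) h6.symm] at h7
      have h8 := (e (vt h)).injective (Subtype.ext h7)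
      exact Subtype.mk.inj h8
    · rintro ⟨⟨a, b⟩, hab⟩
      let y := (e a).symm ⟨b, hab⟩
      have hy : e a y = ⟨b, hab⟩ := (e a).apply_symm_apply _
      refine ⟨y.1, ?_⟩
      apply SimpleGraph.Dart.ext
      change (vt y.1, (e (vt y.1) ⟨y.1, rfl⟩).1) = (a, b)
      rw [hv y.1 a y.2]
      have h8 : (e a ⟨y.1, y.2⟩).1 = b := congrArg Subtype.val hy
      rw [h8, y.2]
  exact ⟨⟨Equiv.ofBijective L0 hbij, fun h => rfl⟩⟩

theorem card_lab (h3 : ∀ v, dg Γ (Sum.inl v) = 3) (h2 : ∀ w, dg Γ (Sum.inr w) = 2) :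
    Nat.card (Lab Γ) = 6 ^ (2 * r) * 2 ^ N := by
  obtain ⟨L0⟩ := exists_lab Γ h3 h2
  rw [← card_stab (r := r) (N := N)]
  apply Nat.card_congr
  refine Equiv.ofBijective (fun L : Lab Γ => (⟨L.1.trans L0.1.symm, ?_⟩ :
    {π : Equiv.Perm (HH r N) // vt ∘ π = vt})) ⟨?_, ?_⟩
  · funext h
    change vt (L0.1.symm (L.1 h)) = vt h
    rw [← L0.2, Equiv.apply_symm_apply, L.2]
  · intro L L' hh
    have h1 := Subtype.mk.inj hh
    apply Subtype.ext
    ext1 x
    have h4 := congrArg (fun k : Equiv.Perm (HH r N) => k x) h1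
    exact L0.1.symm.injective h4
  · rintro ⟨π, hπ⟩
    refine ⟨⟨π.trans L0.1, ?_⟩, ?_⟩
    · intro h
      change (L0.1 (π h)).fst = vt h
      rw [L0.2]
      exact congrFun hπ h
    · apply Subtype.ext
      ext1 x
      change L0.1.symm (L0.1 (π x)) = π x
      rw [Equiv.symm_apply_apply]

variable {Γ}

/-- the pairing -/
noncomputable def pai (L : Lab Γ) : Equiv.Perm (HH r N) := (L.1.trans (rev Γ)).trans L.1.symm

theorem L_pai (L : Lab Γ) (h : HH r N) : L.1 (pai L h) = rev Γ (L.1 h) := by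
  change L.1 (L.1.symm (rev Γ (L.1 h))) = _
  rw [Equiv.apply_symm_apply]

theorem rev_rev (d : Γ.Dart) : rev Γ (rev Γ d) = d := SimpleGraph.Dart.symm_symm d

theorem rev_fst (d : Γ.Dart) : (rev Γ d).fst = d.snd := rfl

theorem pai_pai (L : Lab Γ) (h : HH r N) : pai L (pai L h) = h := by
  apply L.1.injective
  rw [L_pai, L_pai, rev_rev]

theorem vt_pai (L : Lab Γ) (h : HH r N) : vt (pai L h) = (L.1 h).snd := by
  rw [← L.2, L_pai, rev_fst]

theorem adj_pai (L : Lab Γ) (h : HH r N) : Γ.Adj (vt h) (vt (pai L h)) := by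
  rw [vt_pai, ← L.2]
  exact (L.1 h).adj

theorem pai_pair (L : Lab Γ) : IsPair (pai L) := by
  intro h
  refine ⟨pai_pai L h, ?_⟩
  intro hh
  have h1 := adj_pai L h
  rw [hh] at h1
  exact h1.ne rfl

theorem exists_of_adj (L : Lab Γ) {a b : VV r N} (hab : Γ.Adj a b) :
    ∃ h, vt h = a ∧ vt (pai L h) = b := by
  refine ⟨L.1.symm ⟨(a, b), hab⟩, ?_, ?_⟩
  · rw [← L.2, Equiv.apply_symm_apply]
  · rw [vt_pai, Equiv.apply_symm_apply]

theorem pai_inj {Γ' : SimpleGraph (VV r N)} (L : Lab Γ) (L' : Lab Γ') (hh : pai L = pai L') :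
    Γ = Γ' := by
  ext a b
  constructor
  · intro h
    obtain ⟨x, rfl, rfl⟩ := exists_of_adj L h
    rw [hh]
    exact adj_pai L' x
  · intro h
    obtain ⟨x, rfl, rfl⟩ := exists_of_adj L' h
    rw [← hh]
    exact adj_pai L x

theorem pai_inj' (L L' : Lab Γ) (hh : pai L = pai L') : L = L' := by
  apply Subtype.ext
  ext1 x
  apply SimpleGraph.Dart.ext
  apply Prod.ext
  · exact (L.2 x).trans (L'.2 x).symm
  · have h1 := vt_pai L x
    have h2 := vt_pai L' x
    rw [hh, h2] at h1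
    exact h1.symm

theorem pai_noPure (L : Lab Γ) (hC : CXG Γ) (h2 : ∀ w, dg Γ (Sum.inr w) = 2) :
    NoPure (pai L) := by
  classical
  intro C hCne
  by_contra hcon
  push Not at hcon
  obtain ⟨w0, hw0⟩ := hCne
  have hclos : ∀ a b : VV r N, Γ.Adj a b → (∃ w ∈ C, a = Sum.inr w) → ∃ w ∈ C, b = Sum.inr w := by
    rintro a b hab ⟨w, hw, rfl⟩
    obtain ⟨h, h1, h3⟩ := exists_of_adj L hab
    obtain ⟨c, rfl⟩ := vt_eq_inr h1
    obtain ⟨w', hw', b', hb'⟩ := hcon w hw c
    refine ⟨w', hw', ?_⟩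
    rw [← h3, hb']
    rfl
  set cmp := Γ.connectedComponentMk (Sum.inr w0) with hcmp
  set Q : Finset (VV r N) := Finset.univ.filter (fun v => v ∈ cmp.supp) with hQ
  have hQs : (cmp.supp : Set (VV r N)) = (Q : Set (VV r N)) := by
    ext v
    rw [hQ]
    simp
  have hmem : ∀ v, v ∈ Q ↔ Γ.Reachable v (Sum.inr w0) := by
    intro v
    rw [hQ, Finset.mem_filter, SimpleGraph.ConnectedComponent.mem_supp_iff, hcmp,
      SimpleGraph.ConnectedComponent.eq]
    simp
  have hall : ∀ v ∈ Q, ∃ w ∈ C, v = Sum.inr w := by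
    intro v hv
    obtain ⟨p⟩ := ((hmem v).1 hv).symm
    have : ∀ (a b : VV r N) (p : Γ.Walk a b), (∃ w ∈ C, a = Sum.inr w) →
        ∃ w ∈ C, b = Sum.inr w := by
      intro a b p
      induction p with
      | nil => exact id
      | cons h _ ih => exact fun ha => ih (hclos _ _ h ha)
    exact this _ _ p ⟨w0, hw0, rfl⟩
  have hcl : ∀ a b, Γ.Adj a b → a ∈ Q → b ∈ Q := by
    intro a b hab ha
    rw [hmem] at *
    exact hab.symm.reachable.trans ha
  have h3 := eIn_closed Γ Q hcl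
  have h4 : ∑ v ∈ Q, dg Γ v = 2 * #Q := by
    rw [Finset.sum_congr rfl (fun v hv => show dg Γ v = 2 by
      obtain ⟨w, _, rfl⟩ := hall v hv
      exact h2 w)]
    simp [mul_comm]
  have h5 := hC Q ⟨cmp, hQs⟩
  omega

theorem card_cc (L : Lab Γ) : Nat.card Γ.ConnectedComponent = cmq (pai L) vt := by
  symm
  unfold cmq
  apply Nat.card_congr
  refine Equiv.ofBijective (Quot.lift (fun h => Γ.connectedComponentMk (vt h)) ?_) ⟨?_, ?_⟩
  · rintro a b (h | h)
    · rw [h, SimpleGraph.ConnectedComponent.eq]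
      exact (adj_pai L a).reachable
    · rw [h]
  · have key : ∀ (u v : VV r N) (_ : Γ.Walk u v) (a b : HH r N), vt a = u → vt b = v →
        Quot.mk (fun a b : HH r N => b = pai L a ∨ vt b = vt a) a
          = Quot.mk (fun a b : HH r N => b = pai L a ∨ vt b = vt a) b := by
      intro u v p
      induction p with
      | nil =>
        intro a b ha hb
        exact Quot.sound (Or.inr (hb.trans ha.symm))
      | cons h _ ih =>
        intro a b ha hb
        obtain ⟨x, h1, h2⟩ := exists_of_adj L h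
        have e1 : Quot.mk (fun a b : HH r N => b = pai L a ∨ vt b = vt a) a = Quot.mk _ x :=
          Quot.sound (Or.inr (h1.trans ha.symm))
        have e2 : Quot.mk (fun a b : HH r N => b = pai L a ∨ vt b = vt a) x
            = Quot.mk _ (pai L x) := Quot.sound (Or.inl rfl)
        rw [e1, e2]
        exact ih (pai L x) b h2 hb
    intro a b
    induction a using Quot.ind with
    | mk a =>
      induction b using Quot.ind with
      | mk b =>
        intro hab
        have h1 : Γ.Reachable (vt a) (vt b) := SimpleGraph.ConnectedComponent.exact hab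
        obtain ⟨p⟩ := h1
        exact key _ _ p a b rfl rfl
  · intro c
    induction c using SimpleGraph.ConnectedComponent.ind with
    | h v =>
      obtain ⟨h, rfl⟩ := exists_dart v
      exact ⟨Quot.mk _ h, rfl⟩

theorem pai_EP (L : Lab Γ) (h3 : ∀ v, dg Γ (Sum.inl v) = 3) (h2 : ∀ w, dg Γ (Sum.inr w) = 2)
    (o : Option ℕ) (ho : EO o Γ) : EP o (pai L) := by
  classical
  intro g hg
  obtain ⟨σ', hσ, hineq⟩ := ho g hg
  let P : Equiv.Perm (HH r N) := (L.1.trans σ').trans L.1.symm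
  have hLP : ∀ h, L.1 (P h) = σ' (L.1 h) := by
    intro h
    change L.1 (L.1.symm (σ' (L.1 h))) = _
    rw [Equiv.apply_symm_apply]
  have hvt : ∀ h, vt (P h) = vt h := by
    intro h
    rw [← L.2, hLP, hσ.src, L.2]
  have hcyc : ∀ h h', vt h = vt h' → P.SameCycle h h' := by
    intro h h' e
    rw [sameCycle_conj' L.1 P σ' hLP]
    apply hσ.cyc
    rw [L.2, L.2, e]
  have hmaps : Set.MapsTo P (Set.range Sum.inl) (Set.range Sum.inl) := by
    rintro _ ⟨x, rfl⟩
    obtain ⟨i, hi⟩ := vt_eq_inl (hvt (Sum.inl x))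
    exact ⟨_, hi.symm⟩
  obtain ⟨⟨σ1, σ2⟩, h12⟩ := Equiv.Perm.mem_sumCongrHom_range_of_perm_mapsTo_inl hmaps
  have h12' : (Equiv.sumCongr σ1 σ2 : Equiv.Perm (HH r N)) = P := h12
  have hr : RotX σ1 := by
    constructor
    · intro x
      have h1 := hvt (Sum.inl x)
      rw [← h12'] at h1
      exact Sum.inl_injective h1
    · intro x y hxy
      obtain ⟨n, hn⟩ := hcyc (Sum.inl x) (Sum.inl y) (congrArg Sum.inl hxy)
      rw [← h12', sumCongr_zpow_inl] at hn
      exact ⟨n, Sum.inl_injective hn⟩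
  have h22 : σ2 = Equiv.prodCongr (Equiv.refl (Fin N)) (Equiv.swap false true) := by
    ext1 ⟨w, b⟩
    have h1 := hvt (Sum.inr (w, b))
    obtain ⟨b', hb'⟩ := vt_eq_inr h1
    have hne : b' ≠ b := by
      rintro rfl
      obtain ⟨n, hn⟩ := hcyc (Sum.inr (w, b')) (Sum.inr (w, !b')) rfl
      rw [zpow_fix _ hb'] at hn
      have h4 := (Prod.mk.inj (Sum.inr_injective hn)).2
      cases b' <;> simp at h4
    have h3 := bool_of_ne hne
    subst h3
    rw [← h12'] at hb'
    have h5 : σ2 (w, b) = (w, !b) := Sum.inr_injective hb'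
    rw [h5]
    cases b <;> simp
  refine ⟨σ1, hr, ?_⟩
  have h4 : orb (Equiv.sumCongr σ1 σ2 * pai L) = orb (σ' * rev Γ) := by
    apply orb_conj L.1
    intro h
    rw [Equiv.Perm.mul_apply, Equiv.Perm.mul_apply, h12', hLP, L_pai]
  rw [← h22, h4, ← card_cc L]
  have h5 : Nat.card {v : VV r N // ∀ w, ¬ Γ.Adj v w} = 0 := by
    rw [Nat.card_eq_zero]
    left
    constructor
    rintro ⟨v, hv⟩
    obtain ⟨h, rfl⟩ := exists_dart v
    exact hv _ (adj_pai L h)
  have h6 : Nat.card (VV r N) = 2 * r + N := by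
    rw [Nat.card_eq_fintype_card, Fintype.card_sum, Fintype.card_fin, Fintype.card_fin]
  have h7 : 2 * ne Γ = 6 * r + 2 * N := by
    rw [← handshake, Fintype.sum_sum_type]
    rw [Finset.sum_congr rfl (fun v _ => h3 v), Finset.sum_congr rfl (fun w _ => h2 w)]
    simp
    ring
  unfold faces at hineq
  rw [h5, h6] at hineq
  omega

end

theorem goalPAX : StmtPAX := by
  classical
  intro o r N _
  set GG := {Γ : SimpleGraph (VV r N) // CubG o r N Γ} with hGG
  have hcard : Nat.card (Σ Γ : GG, Lab Γ.1) = 6 ^ (2 * r) * 2 ^ N * Nat.card GG := by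
    have h1 : ∀ Γ : GG, Nat.card (Lab Γ.1) = 6 ^ (2 * r) * 2 ^ N := by
      intro Γ
      exact card_lab Γ.1 Γ.2.2.1 Γ.2.2.2.1
    have hfin : ∀ Γ : GG, Finite (Lab Γ.1) := by
      intro Γ
      apply Nat.finite_of_card_ne_zero
      rw [h1]
      positivity
    have : Fintype GG := Fintype.ofFinite _
    rw [Nat.card_sigma, Finset.sum_congr rfl (fun Γ _ => h1 Γ)]
    simp [mul_comm]
  rw [← hcard]
  refine Nat.card_le_card_of_injective
    (fun x : (Σ Γ : GG, Lab Γ.1) =>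
      (⟨pai x.2, pai_pair x.2, pai_noPure x.2 x.1.2.1 x.1.2.2.2.1,
        pai_EP x.2 x.1.2.2.1 x.1.2.2.2.1 o x.1.2.2.2.2⟩ :
        {τ : Equiv.Perm (KX r ⊕ Fin N × Bool) // IsPair τ ∧ NoPure τ ∧ EP o τ})) ?_
  rintro ⟨⟨Γ, hΓ⟩, L⟩ ⟨⟨Γ', hΓ'⟩, L'⟩ h
  have h1 : pai L = pai L' := congrArg Subtype.val h
  have h2 : Γ = Γ' := pai_inj L L' h1
  subst h2
  have h3 : L = L' := pai_inj' L L' h1
  rw [h3]

end Pool.Agent.Helper79.AL
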